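import Mathlib
import Pool.Agent.Helper133.Brouwer

/-!
# MP_8916ec_co : tropical rank equals dimension

Let `M` be the semimodule generated by real functions `g_1, …, g_l` on a set `Y`. We prove that the
largest number of tropically independent elements of `M` is the maximum of
`l - dim Ψ⁻¹(f)`.

* For coefficients in `ℝ ∪ {∞}` this holds for every nonempty set `Y` and all functions `g_j`.
* For real coefficients it holds if `Y` is compact and the `g_j` are continuous.
* For real coefficients and unbounded `Y` it fails, already for `0` and `-x` on `[0, ∞)`.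

Proof. Let `f_1, …, f_r` be tropically independent. Put weights `w_i = exp (- c_i)`, a point of the
simplex (`c_i = ∞` means `w_i = 0`). The sets `A_i` of weights for which `f_i + c_i` is the unique
minimum at some point of `Y` are open and cover the simplex, and `A_i` misses the facet `w_i = 0`.
By the KKM lemma (deduced from the fixed point theorem of Brouwer) there is a weight in all `A_i`: every `i`
has a private point `x_i`. Then the `f_i` can be replaced by distinct generators `g_{j_i}`. After a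
small generic change of the coefficients no generator touches `f = min_i (g_{j_i} + c_i)` at two of
the points `x_i`, so every polyhedron in the fibre of `f` has at least `r` constant coordinates.
Conversely a minimal cover of `Y` by the sets where `g_j + t_j = f` gives independent generators.
-/

set_option autoImplicit false

namespace Pool.Agent.Results.MP_8916ec_co.RankDim

open Set

variable {Y : Type}

/-- `Ψ(c)(y) = min_j (g_j(y) + c_j)`, for `l` functions `g_j` and real coefficients. -/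
noncomputable def Psi {l : ℕ} (g : Fin l → Y → ℝ) (c : Fin l → ℝ) : Y → ℝ :=
  fun y => ⨅ j, (g j y + c j)

/-- The finite-valued elements of the semimodule generated by the `g_j`: the real functions of the
form `min_j (a_j + g_j)` with `a_j ∈ ℝ ∪ {∞}`. -/
def span {l : ℕ} (g : Fin l → Y → ℝ) : Set (Y → ℝ) :=
  {f | ∃ a : Fin l → WithTop ℝ, ∀ y,
    (f y : WithTop ℝ) = Finset.univ.inf (fun j => a j + (g j y : WithTop ℝ))}

/-- Tropical dependence with coefficients in `ℝ`. -/
def RealDep {r : ℕ} (f : Fin r → Y → ℝ) : Prop :=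
  ∃ c : Fin r → ℝ, ∀ y, ∃ i j, i ≠ j ∧ f i y + c i = f j y + c j ∧
    ∀ k, f i y + c i ≤ f k y + c k

/-- Tropical dependence with coefficients in `ℝ ∪ {∞}`, not all of them `∞`. -/
def TropDep {r : ℕ} (f : Fin r → Y → ℝ) : Prop :=
  ∃ c : Fin r → WithTop ℝ, (∃ i, c i ≠ ⊤) ∧ ∀ y, ∃ i j, i ≠ j ∧
    (f i y : WithTop ℝ) + c i = (f j y : WithTop ℝ) + c j ∧
    ∀ k, (f i y : WithTop ℝ) + c i ≤ (f k y : WithTop ℝ) + c k

/-- Closed convex polyhedra in `ℝ^l`. -/
def IsPolyhedron {l : ℕ} (K : Set (Fin l → ℝ)) : Prop :=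
  ∃ (m : ℕ) (A : Fin m → Fin l → ℝ) (b : Fin m → ℝ), K = {x | ∀ i, ∑ j, A i j * x j ≤ b i}

/-- The dimension of a nonempty finite union of polyhedra: the largest dimension of a nonempty
polyhedron contained in it. -/
noncomputable def polyDim {l : ℕ} (S : Set (Fin l → ℝ)) : ℕ :=
  sSup {k | ∃ K ⊆ S, IsPolyhedron K ∧ K.Nonempty ∧ Module.finrank ℝ (vectorSpan ℝ K) = k}

/-! ### KKM -/

lemma kkm {r : ℕ} (hr : 0 < r) (A : Fin r → Set (Fin r → ℝ)) (hopen : ∀ i, IsOpen (A i))
    (hpos : ∀ i, ∀ w ∈ A i, 0 < w i)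
    (hcov : ∀ w : Fin r → ℝ, (∀ i, 0 ≤ w i) → ∑ i, w i = 1 → ∃ i, w ∈ A i) :
    ∃ w : Fin r → ℝ, (∀ i, 0 ≤ w i) ∧ ∑ i, w i = 1 ∧ ∀ i, w ∈ A i := by
  have : Nonempty (Fin r) := ⟨⟨0, hr⟩⟩
  have hne : ∀ i, ((A i)ᶜ).Nonempty := fun i => ⟨0, fun h => lt_irrefl _ (hpos i 0 h)⟩
  set θ : Fin r → (Fin r → ℝ) → ℝ := fun i w => Metric.infDist w (A i)ᶜ with hθ
  have hθc : ∀ i, Continuous (θ i) := fun i => Metric.continuous_infDist_pt _
  have hθ0 : ∀ i w, 0 ≤ θ i w := fun i w => Metric.infDist_nonneg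
  have hθp : ∀ i w, w ∈ A i ↔ 0 < θ i w := by
    intro i w
    rw [hθ, ← (hopen i).isClosed_compl.notMem_iff_infDist_pos (hne i)]
    simp
  have hcomp : IsCompact (stdSimplex ℝ (Fin r)) := isCompact_stdSimplex ℝ (Fin r)
  have hSne : (stdSimplex ℝ (Fin r)).Nonempty := ⟨_, single_mem_stdSimplex ℝ (⟨0, hr⟩ : Fin r)⟩
  have hsumc : Continuous fun w => ∑ i, θ i w := continuous_finsetSum _ fun i _ => hθc i
  obtain ⟨w0, hw0, hmin⟩ := hcomp.exists_isMinOn hSne hsumc.continuousOn
  have hδ : 0 < ∑ i, θ i w0 := by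
    obtain ⟨i, hi⟩ := hcov w0 hw0.1 hw0.2
    exact lt_of_lt_of_le ((hθp i w0).1 hi)
      (Finset.single_le_sum (fun j _ => hθ0 j w0) (Finset.mem_univ i))
  set δ := ∑ i, θ i w0 with hδdef
  set ε := δ / r with hε
  have hr' : (0 : ℝ) < r := by exact_mod_cast hr
  have hεp : 0 < ε := div_pos hδ hr'
  have hlow : ∀ w ∈ stdSimplex ℝ (Fin r), ∃ i, ε ≤ θ i w := by
    intro w hw
    by_contra hcon
    push Not at hcon
    have h1 : δ ≤ ∑ i, θ i w := hmin hw
    have h2 : ∑ i, θ i w < ∑ _i : Fin r, ε :=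
      Finset.sum_lt_sum_of_nonempty Finset.univ_nonempty fun i _ => hcon i
    rw [Finset.sum_const, Finset.card_univ, Fintype.card_fin, nsmul_eq_mul, hε,
      mul_div_cancel₀ _ hr'.ne'] at h2
    linarith
  set γ : Fin r → (Fin r → ℝ) → ℝ := fun i w => max 0 (ε - θ i w) with hγ
  have hγc : ∀ i, Continuous (γ i) := fun i => continuous_const.max (continuous_const.sub (hθc i))
  have hγ0 : ∀ i w, 0 ≤ γ i w := fun i w => le_max_left _ _
  -- retraction to the simplex
  set ρ : (Fin r → ℝ) → (Fin r → ℝ) := fun x i =>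
    (max 0 (x i) + max 0 (1 - ∑ j, max 0 (x j)) / r) / max 1 (∑ j, max 0 (x j)) with hρ
  have hρc : Continuous ρ := by
    refine continuous_pi fun i => ?_
    have hs : Continuous fun x : Fin r → ℝ => ∑ j, max 0 (x j) :=
      continuous_finsetSum _ fun j _ => continuous_const.max (continuous_apply j)
    refine Continuous.div ?_ (continuous_const.max hs) ?_
    · exact (continuous_const.max (continuous_apply i)).add
        ((continuous_const.max (continuous_const.sub hs)).div_const _)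
    · intro x
      have : (1:ℝ) ≤ max 1 (∑ j, max 0 (x j)) := le_max_left _ _
      positivity
  have hρmem : ∀ x, ρ x ∈ stdSimplex ℝ (Fin r) := by
    intro x
    have h1 : (1:ℝ) ≤ max 1 (∑ j, max 0 (x j)) := le_max_left _ _
    constructor
    · intro i
      apply div_nonneg _ (by linarith)
      apply add_nonneg (le_max_left _ _)
      exact div_nonneg (le_max_left _ _) (by positivity)
    · simp only [hρ]
      rw [← Finset.sum_div, Finset.sum_add_distrib, Finset.sum_const, Finset.card_univ,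
        Fintype.card_fin, nsmul_eq_mul, mul_div_cancel₀ _ hr'.ne']
      rw [div_eq_one_iff_eq (by linarith)]
      rcases le_total (∑ j, max 0 (x j)) 1 with h | h
      · rw [max_eq_right (by linarith), max_eq_left h]; ring
      · rw [max_eq_left (by linarith), max_eq_right h]; ring
  have hρid : ∀ x ∈ stdSimplex ℝ (Fin r), ρ x = x := by
    intro x hx
    funext i
    simp only [hρ]
    have e : ∑ j, max 0 (x j) = 1 := by
      rw [← hx.2]
      exact Finset.sum_congr rfl fun j _ => max_eq_right (hx.1 j)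
    rw [e, max_eq_right (hx.1 i)]
    simp
  set T : (Fin r → ℝ) → (Fin r → ℝ) := fun w i => (w i + γ i w) / (1 + ∑ j, γ j w) with hT
  have hden : ∀ w, 0 < 1 + ∑ j, γ j w := by
    intro w
    have : 0 ≤ ∑ j, γ j w := Finset.sum_nonneg fun j _ => hγ0 j w
    linarith
  have hTc : Continuous T := by
    refine continuous_pi fun i => ?_
    refine Continuous.div ((continuous_apply i).add (hγc i)) ?_ fun w => (hden w).ne'
    exact continuous_const.add (continuous_finsetSum _ fun j _ => hγc j)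
  have hTmem : ∀ w ∈ stdSimplex ℝ (Fin r), T w ∈ stdSimplex ℝ (Fin r) := by
    intro w hw
    constructor
    · intro i
      exact div_nonneg (add_nonneg (hw.1 i) (hγ0 i w)) (hden w).le
    · simp only [hT]
      rw [← Finset.sum_div, Finset.sum_add_distrib, hw.2, div_self (hden w).ne']
  obtain ⟨x, hx⟩ := Pool.Agent.Helper133.Brouwer.brouwer (fun x => T (ρ x)) (hTc.comp hρc) 1 (by
    intro x
    have hm := hTmem _ (hρmem x)
    rw [pi_norm_le_iff_of_nonneg zero_le_one]
    intro i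
    rw [Real.norm_eq_abs, abs_of_nonneg (hm.1 i), ← hm.2]
    exact Finset.single_le_sum (fun j _ => hm.1 j) (Finset.mem_univ i))
  have hx1 : T (ρ x) = x := hx
  have hxm : x ∈ stdSimplex ℝ (Fin r) := by
    rw [← hx1]; exact hTmem _ (hρmem x)
  rw [hρid x hxm] at hx1
  have hfix : ∀ i, γ i x = x i * ∑ j, γ j x := by
    intro i
    have h1 : (x i + γ i x) / (1 + ∑ j, γ j x) = x i := congrFun hx1 i
    rw [div_eq_iff (hden x).ne'] at h1
    linarith
  obtain ⟨i, hi⟩ := hlow x hxm
  have hγi : γ i x = 0 := by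
    simp only [hγ]; exact max_eq_left (by linarith)
  have hxi : 0 < x i := hpos i x ((hθp i x).2 (lt_of_lt_of_le hεp hi))
  have hsum0 : ∑ j, γ j x = 0 := by
    have := hfix i
    rw [hγi] at this
    rcases mul_eq_zero.1 this.symm with h | h
    · exact absurd h hxi.ne'
    · exact h
  refine ⟨x, hxm.1, hxm.2, fun k => (hθp k x).2 ?_⟩
  have hk := hfix k
  rw [hsum0, mul_zero] at hk
  have h3 : ε - θ k x ≤ 0 := by
    have := le_max_right 0 (ε - θ k x)
    simp only [hγ] at hk
    linarith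
  linarith

/-! ### elementary facts -/

lemma Psi_le {l : ℕ} (g : Fin l → Y → ℝ) (c : Fin l → ℝ) (y : Y) (j : Fin l) :
    Psi g c y ≤ g j y + c j :=
  ciInf_le (Set.finite_range _).bddBelow j

lemma exists_Psi_eq {l : ℕ} (hl : 0 < l) (g : Fin l → Y → ℝ) (c : Fin l → ℝ) (y : Y) :
    ∃ j, Psi g c y = g j y + c j := by
  have : Nonempty (Fin l) := ⟨⟨0, hl⟩⟩
  obtain ⟨j, hj⟩ := exists_eq_ciInf_of_finite (f := fun j => g j y + c j)
  exact ⟨j, hj.symm⟩

lemma mem_span_iff {l : ℕ} (hl : 0 < l) (g : Fin l → Y → ℝ) (f : Y → ℝ) :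
    f ∈ span g ↔ ∃ a : Fin l → WithTop ℝ, ∀ y, (∀ j, (f y : WithTop ℝ) ≤ a j + (g j y : WithTop ℝ)) ∧
      ∃ j, (f y : WithTop ℝ) = a j + (g j y : WithTop ℝ) := by
  have : Nonempty (Fin l) := ⟨⟨0, hl⟩⟩
  constructor
  · rintro ⟨a, ha⟩
    refine ⟨a, fun y => ⟨fun j => ?_, ?_⟩⟩
    · rw [ha y]; exact Finset.inf_le (Finset.mem_univ j)
    · obtain ⟨j, _, hj⟩ := Finset.exists_mem_eq_inf Finset.univ Finset.univ_nonempty
        (fun j => a j + (g j y : WithTop ℝ))
      exact ⟨j, by rw [ha y, hj]⟩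
  · rintro ⟨a, ha⟩
    refine ⟨a, fun y => le_antisymm (Finset.le_inf fun j _ => (ha y).1 j) ?_⟩
    obtain ⟨j, hj⟩ := (ha y).2
    rw [hj]
    exact Finset.inf_le (Finset.mem_univ j)

/-! ### step 1 : private points -/

lemma exists_private {r : ℕ} (hr : 0 < r) (f : Fin r → Y → ℝ) (hf : ¬ TropDep f) :
    ∃ (c : Fin r → ℝ) (x : Fin r → Y), ∀ i k, k ≠ i → f i (x i) + c i < f k (x i) + c k := by
  have : Nonempty (Fin r) := ⟨⟨0, hr⟩⟩
  set A : Fin r → Set (Fin r → ℝ) := fun i => {w | 0 < w i ∧ ∃ y, ∀ k, k ≠ i →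
    w k * Real.exp (- f k y) < w i * Real.exp (- f i y)} with hA
  obtain ⟨w, hw0, hw1, hw⟩ := kkm hr A (by
    intro i
    have : A i = {w | 0 < w i} ∩ ⋃ y, ⋂ k, ({w : Fin r → ℝ | k = i} ∪
        {w | w k * Real.exp (- f k y) < w i * Real.exp (- f i y)}) := by
      ext w
      simp only [hA, mem_ofPred_eq, mem_inter_iff, mem_iUnion, mem_iInter, mem_union]
      constructor
      · rintro ⟨h1, y, h2⟩
        refine ⟨h1, y, fun k => ?_⟩
        by_cases hk : k = i
        · exact Or.inl hk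
        · exact Or.inr (h2 k hk)
      · rintro ⟨h1, y, h2⟩
        refine ⟨h1, y, fun k hk => ?_⟩
        rcases h2 k with h | h
        · exact absurd h hk
        · exact h
    rw [this]
    apply (isOpen_lt continuous_const (continuous_apply i)).inter
    apply isOpen_iUnion
    intro y
    apply isOpen_iInter_of_finite
    intro k
    apply IsOpen.union isOpen_const
    exact isOpen_lt (by fun_prop) (by fun_prop)) (fun i w hw => hw.1) (by
    intro w h0 h1
    by_contra hcon
    push Not at hcon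
    apply hf
    refine ⟨fun i => if w i = 0 then ⊤ else ((- Real.log (w i) : ℝ) : WithTop ℝ), ?_, ?_⟩
    · by_contra hall
      push Not at hall
      have : ∀ i, w i = 0 := by
        intro i
        have := hall i
        by_contra hne
        rw [if_neg hne] at this
        exact WithTop.coe_ne_top this
      rw [Finset.sum_eq_zero (fun i _ => this i)] at h1
      exact zero_ne_one h1
    · intro y
      set c : Fin r → WithTop ℝ :=
        fun i => if w i = 0 then ⊤ else ((- Real.log (w i) : ℝ) : WithTop ℝ) with hc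
      obtain ⟨i, hi⟩ := Finite.exists_min (fun k => (f k y : WithTop ℝ) + c k)
      by_contra hno
      push Not at hno
      have hst : ∀ k, k ≠ i → (f i y : WithTop ℝ) + c i < (f k y : WithTop ℝ) + c k := by
        intro k hk
        refine lt_of_le_of_ne (hi k) fun he => ?_
        obtain ⟨k', hk'⟩ := hno i k hk.symm he
        exact absurd (hi k') (not_le.2 hk')
      have hwi : w i ≠ 0 := by
        intro h
        -- some k has w k ≠ 0
        have hex : ∃ k, w k ≠ 0 := by
          by_contra hall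
          push Not at hall
          rw [Finset.sum_eq_zero (fun i _ => hall i)] at h1
          exact zero_ne_one h1
        obtain ⟨k, hk⟩ := hex
        have := hi k
        simp only [hc, if_pos h, if_neg hk, WithTop.add_top, top_le_iff] at this
        rw [← WithTop.coe_add] at this
        exact WithTop.coe_ne_top this
      have hwi' : 0 < w i := lt_of_le_of_ne (h0 i) (Ne.symm hwi)
      apply hcon i
      refine ⟨hwi', y, fun k hk => ?_⟩
      by_cases hwk : w k = 0
      · rw [hwk, zero_mul]; positivity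
      · have hwk' : 0 < w k := lt_of_le_of_ne (h0 k) (Ne.symm hwk)
        have := hst k hk
        simp only [hc, if_neg hwi, if_neg hwk] at this
        rw [← WithTop.coe_add, ← WithTop.coe_add, WithTop.coe_lt_coe] at this
        have e1 : w k * Real.exp (- f k y) = Real.exp (Real.log (w k) - f k y) := by
          rw [sub_eq_add_neg, Real.exp_add, Real.exp_log hwk']
        have e2 : w i * Real.exp (- f i y) = Real.exp (Real.log (w i) - f i y) := by
          rw [sub_eq_add_neg, Real.exp_add, Real.exp_log hwi']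
        rw [e1, e2]
        apply Real.exp_lt_exp.2
        linarith)
  choose x hx using fun i => (hw i).2
  refine ⟨fun i => - Real.log (w i), x, fun i k hk => ?_⟩
  have h := hx i k hk
  have hwi : 0 < w i := (hw i).1
  have hwk : 0 < w k := (hw k).1
  have e1 : w k * Real.exp (- f k (x i)) = Real.exp (Real.log (w k) - f k (x i)) := by
    rw [sub_eq_add_neg, Real.exp_add, Real.exp_log hwk]
  have e2 : w i * Real.exp (- f i (x i)) = Real.exp (Real.log (w i) - f i (x i)) := by
    rw [sub_eq_add_neg, Real.exp_add, Real.exp_log hwi]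
  rw [e1, e2, Real.exp_lt_exp] at h
  linarith

/-! ### step 2 : passing to generators -/

lemma exists_gen {l r : ℕ} (hl : 0 < l) (g : Fin l → Y → ℝ) (f : Fin r → Y → ℝ)
    (hf : ∀ i, f i ∈ span g) (c : Fin r → ℝ) (x : Fin r → Y)
    (h : ∀ i k, k ≠ i → f i (x i) + c i < f k (x i) + c k) :
    ∃ (j : Fin r → Fin l) (e : Fin r → ℝ), Function.Injective j ∧
      ∀ i k, k ≠ i → g (j i) (x i) + e i < g (j k) (x i) + e k := by
  choose a ha using fun i => (mem_span_iff hl g (f i)).1 (hf i)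
  have h1 : ∀ i, ∃ (j : Fin l) (b : ℝ), a i j = (b : WithTop ℝ) ∧
      f i (x i) = b + g j (x i) := by
    intro i
    obtain ⟨j, hj⟩ := (ha i (x i)).2
    have hne : a i j ≠ ⊤ := by
      intro ht
      rw [ht, WithTop.top_add] at hj
      exact WithTop.coe_ne_top hj
    obtain ⟨b, hb⟩ := WithTop.ne_top_iff_exists.1 hne
    refine ⟨j, b, hb.symm, ?_⟩
    rw [← hb, ← WithTop.coe_add, WithTop.coe_inj] at hj
    exact hj
  choose j b hb hfb using h1
  have h2 : ∀ i k, k ≠ i → g (j i) (x i) + (b i + c i) < g (j k) (x i) + (b k + c k) := by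
    intro i k hk
    have h3 := (ha k (x i)).1 (j k)
    rw [hb k, ← WithTop.coe_add, WithTop.coe_le_coe] at h3
    have h4 := h i k hk
    have h5 := hfb i
    linarith
  refine ⟨j, fun i => b i + c i, ?_, h2⟩
  intro i k hik
  by_contra hne
  have h3 := h2 i k (Ne.symm hne)
  have h4 := h2 k i hne
  rw [hik] at h3
  rw [hik] at h4
  linarith

/-! ### step 3 : a small fibre -/

lemma IsPolyhedron.convex {l : ℕ} {K : Set (Fin l → ℝ)} (hK : IsPolyhedron K) : Convex ℝ K := by
  obtain ⟨m, A, b, rfl⟩ := hK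
  intro x hx y hy s t hs ht hst i
  have h1 : ∑ j, A i j * (s • x + t • y) j = s * ∑ j, A i j * x j + t * ∑ j, A i j * y j := by
    rw [Finset.mul_sum, Finset.mul_sum, ← Finset.sum_add_distrib]
    refine Finset.sum_congr rfl fun j _ => ?_
    simp only [Pi.add_apply, Pi.smul_apply, smul_eq_mul]
    ring
  rw [h1]
  have h2 := mul_le_mul_of_nonneg_left (hx i) hs
  have h3 := mul_le_mul_of_nonneg_left (hy i) ht
  calc _ ≤ s * b i + t * b i := add_le_add h2 h3
    _ = b i := by rw [← add_mul, hst, one_mul]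

lemma finrank_bound {l : ℕ} (K : Set (Fin l → ℝ)) (J : Finset (Fin l))
    (hJ : ∀ m ∈ J, ∀ p ∈ K, ∀ q ∈ K, p m = q m) :
    Module.finrank ℝ (vectorSpan ℝ K) ≤ l - J.card := by
  have hz : ∀ v ∈ vectorSpan ℝ K, ∀ m ∈ J, v m = 0 := by
    intro v hv m hm
    rw [vectorSpan_def] at hv
    induction hv using Submodule.span_induction with
    | mem v hv =>
      obtain ⟨p, hp, q, hq, rfl⟩ := hv
      simp [hJ m hm p hp q hq]
    | zero => rfl
    | add a b _ _ ha hb => simp [ha, hb]
    | smul a x _ hx => simp [hx]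
  let φ : vectorSpan ℝ K →ₗ[ℝ] ((Jᶜ : Finset (Fin l)) → ℝ) :=
    (LinearMap.funLeft ℝ ℝ (Subtype.val : (Jᶜ : Finset (Fin l)) → Fin l)).comp
      (vectorSpan ℝ K).subtype
  have hinj : Function.Injective φ := by
    rw [injective_iff_map_eq_zero]
    rintro ⟨v, hv⟩ h0
    ext m
    by_cases hm : m ∈ J
    · exact hz v hv m hm
    · exact congrFun h0 ⟨m, Finset.mem_compl.2 hm⟩
  have := LinearMap.finrank_le_finrank_of_injective hinj
  rwa [Module.finrank_fintype_fun_eq_card, Fintype.card_coe, Finset.card_compl,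
    Fintype.card_fin] at this

lemma exists_low {l r : ℕ} (hl : 0 < l) (g : Fin l → Y → ℝ) (j : Fin r → Fin l)
    (hj : Function.Injective j) (e : Fin r → ℝ) (x : Fin r → Y)
    (h : ∀ i k, k ≠ i → g (j i) (x i) + e i < g (j k) (x i) + e k) :
    ∃ c : Fin l → ℝ, polyDim (Psi g ⁻¹' {Psi g c}) ≤ l - r := by
  -- a small generic perturbation
  have hev1 : ∀ᶠ s in nhdsWithin (0 : ℝ) (Ioi 0), ∀ i k, k ≠ i →
      g (j i) (x i) + (e i + s * (i : ℝ)) < g (j k) (x i) + (e k + s * (k : ℝ)) := by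
    rw [Filter.eventually_all]
    intro i
    rw [Filter.eventually_all]
    intro k
    by_cases hk : k = i
    · exact Filter.Eventually.of_forall fun s hs => absurd hk hs
    · have hc1 : Continuous fun s : ℝ => g (j i) (x i) + (e i + s * (i : ℝ)) := by fun_prop
      have hc2 : Continuous fun s : ℝ => g (j k) (x i) + (e k + s * (k : ℝ)) := by fun_prop
      have := (isOpen_lt hc1 hc2).mem_nhds (x := (0 : ℝ)) (by
        show g (j i) (x i) + (e i + 0 * (i : ℝ)) < g (j k) (x i) + (e k + 0 * (k : ℝ))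
        simpa using h i k hk)
      filter_upwards [mem_nhdsWithin_of_mem_nhds this] with s hs _
      exact hs
  have hev2 : ∀ᶠ s in nhdsWithin (0 : ℝ) (Ioi 0), ∀ i k, k ≠ i → ∀ m,
      (g (j i) (x i) + (e i + s * (i : ℝ))) - (g (j k) (x k) + (e k + s * (k : ℝ)))
        ≠ g m (x i) - g m (x k) := by
    rw [Filter.eventually_all]
    intro i
    rw [Filter.eventually_all]
    intro k
    by_cases hk : k = i
    · exact Filter.Eventually.of_forall fun s hs => absurd hk hs
    · have hki : ((i : ℝ) - (k : ℝ)) ≠ 0 := by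
        intro h0
        apply hk
        have : (i : ℝ) = (k : ℝ) := by linarith
        exact Fin.ext (by exact_mod_cast this.symm)
      have : ∀ᶠ s in nhdsWithin (0 : ℝ) (Ioi 0), ∀ m,
          (g (j i) (x i) + (e i + s * (i : ℝ))) - (g (j k) (x k) + (e k + s * (k : ℝ)))
            ≠ g m (x i) - g m (x k) := by
        rw [Filter.eventually_all]
        intro m
        set s0 : ℝ := ((g m (x i) - g m (x k)) - (g (j i) (x i) + e i - (g (j k) (x k) + e k))) /
          ((i : ℝ) - (k : ℝ)) with hs0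
        have hne : ∀ᶠ s in nhdsWithin (0 : ℝ) (Ioi 0), s ≠ s0 := by
          by_cases h0 : s0 = 0
          · filter_upwards [self_mem_nhdsWithin] with s hs
            rw [h0]; exact (ne_of_gt hs)
          · exact eventually_ne_nhdsWithin (Ne.symm h0)
        filter_upwards [hne] with s hs heq
        apply hs
        rw [hs0, eq_div_iff hki]
        linarith
      filter_upwards [this] with s hs _
      exact hs
  obtain ⟨s, hs1, hs2⟩ := (hev1.and hev2).exists
  obtain ⟨L, hL⟩ := (Set.finite_range (fun p : Fin r × Fin l =>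
    g (j p.1) (x p.1) + (e p.1 + s * (p.1 : ℝ)) - g p.2 (x p.1))).bddAbove
  have hL' : ∀ i m, g (j i) (x i) + (e i + s * (i : ℝ)) < g m (x i) + (L + 1) := by
    intro i m
    have := hL ⟨(i, m), rfl⟩
    simp only at this
    linarith
  set c : Fin l → ℝ := Function.extend j (fun i => e i + s * (i : ℝ)) (fun _ => L + 1) with hc
  have hcj : ∀ i, c (j i) = e i + s * (i : ℝ) := fun i => hj.extend_apply _ _ i
  have hstrict : ∀ i m, m ≠ j i → g (j i) (x i) + c (j i) < g m (x i) + c m := by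
    intro i m hm
    by_cases hmr : ∃ k, j k = m
    · obtain ⟨k, rfl⟩ := hmr
      rw [hcj, hcj]
      exact hs1 i k fun hk => hm (by rw [hk])
    · rw [hcj]
      have : c m = L + 1 := Function.extend_apply' _ _ _ hmr
      rw [this]
      exact hL' i m
  have hval : ∀ i, Psi g c (x i) = g (j i) (x i) + (e i + s * (i : ℝ)) := by
    intro i
    obtain ⟨m, hm⟩ := exists_Psi_eq hl g c (x i)
    by_cases hmi : m = j i
    · rw [hm, hmi, hcj]
    · have h1 := Psi_le g c (x i) (j i)
      have h2 := hstrict i m hmi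
      linarith
  refine ⟨c, ?_⟩
  unfold polyDim
  apply csSup_le'
  rintro k ⟨K, hKsub, hKpoly, ⟨p0, hp0⟩, rfl⟩
  classical
  have hKΨ : ∀ p ∈ K, Psi g p = Psi g c := fun p hp => hKsub hp
  have hconv := hKpoly.convex
  set J : Finset (Fin l) := Finset.univ.filter fun m => ∀ p ∈ K, ∀ q ∈ K, p m = q m with hJdef
  have hJ : ∀ m ∈ J, ∀ p ∈ K, ∀ q ∈ K, p m = q m := by
    intro m hm; rw [hJdef, Finset.mem_filter] at hm; exact hm.2
  have hu : ∀ m, ∃ u ∈ K, m ∉ J → ∃ a ∈ K, a m < u m := by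
    intro m
    by_cases hm : m ∈ J
    · exact ⟨p0, hp0, fun h => absurd hm h⟩
    · have : ∃ p ∈ K, ∃ q ∈ K, p m ≠ q m := by
        by_contra hcon
        push Not at hcon
        exact hm (Finset.mem_filter.2 ⟨Finset.mem_univ m, hcon⟩)
      obtain ⟨p, hp, q, hq, hpq⟩ := this
      rcases lt_or_gt_of_ne hpq with h1 | h1
      · exact ⟨q, hq, fun _ => ⟨p, hp, h1⟩⟩
      · exact ⟨p, hp, fun _ => ⟨q, hq, h1⟩⟩
  choose u huK hu using hu
  have hl' : (0 : ℝ) < l := by exact_mod_cast hl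
  set q : Fin l → ℝ := ∑ m, (l : ℝ)⁻¹ • u m with hq
  have hqK : q ∈ K := by
    apply hconv.sum_mem (fun i _ => inv_nonneg.2 hl'.le) _ (fun i _ => huK i)
    rw [Finset.sum_const, Finset.card_univ, Fintype.card_fin, nsmul_eq_mul,
      mul_inv_cancel₀ hl'.ne']
  have hqlow : ∀ m, m ∉ J → ∃ p ∈ K, p m < q m := by
    intro m hm
    by_contra hcon
    push Not at hcon
    obtain ⟨a, haK, ha⟩ := hu m hm
    have h1 : q m = (l : ℝ)⁻¹ * ∑ m', u m' m := by
      rw [hq, Finset.sum_apply, Finset.mul_sum]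
      rfl
    have h2 : ∑ _m' : Fin l, q m < ∑ m', u m' m :=
      Finset.sum_lt_sum (fun m' _ => hcon _ (huK m'))
        ⟨m, Finset.mem_univ m, lt_of_le_of_lt (hcon a haK) ha⟩
    rw [Finset.sum_const, Finset.card_univ, Fintype.card_fin, nsmul_eq_mul] at h2
    rw [h1, mul_inv_cancel_left₀ hl'.ne'] at h2
    exact lt_irrefl _ h2
  have harg : ∀ i, ∃ m ∈ J, Psi g c (x i) = g m (x i) + q m := by
    intro i
    obtain ⟨m, hm⟩ := exists_Psi_eq hl g q (x i)
    refine ⟨m, ?_, by rw [← hKΨ q hqK]; exact hm⟩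
    by_contra hmJ
    obtain ⟨p, hpK, hp⟩ := hqlow m hmJ
    have h1 := Psi_le g p (x i) m
    rw [hKΨ p hpK, ← hKΨ q hqK, hm] at h1
    linarith
  choose μ hμJ hμ using harg
  have hμinj : Function.Injective μ := by
    intro i k hik
    by_contra hne
    have h1 := hμ i
    have h2 := hμ k
    rw [hval, hik] at h1
    rw [hval] at h2
    exact hs2 i k (Ne.symm hne) (μ k) (by rw [h1, h2]; ring)
  have hcard : r ≤ J.card := by
    have := Finset.card_le_card_of_injOn μ (s := Finset.univ) (t := J) (fun i _ => hμJ i)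
      hμinj.injOn
    simpa using this
  exact (finrank_bound K J hJ).trans (by omega)

/-! ### step 4 : a lower bound for the rank -/

lemma isPolyhedron_of_fintype {l : ℕ} {ι : Type} [Fintype ι] (A : ι → Fin l → ℝ) (b : ι → ℝ) :
    IsPolyhedron {x : Fin l → ℝ | ∀ i, ∑ j, A i j * x j ≤ b i} := by
  refine ⟨Fintype.card ι, fun i => A ((Fintype.equivFin ι).symm i),
    fun i => b ((Fintype.equivFin ι).symm i), ?_⟩
  ext x
  simp only [mem_ofPred_eq]
  exact ⟨fun h i => h _, fun h i => by simpa using h (Fintype.equivFin ι i)⟩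

lemma isPolyhedron_K {l : ℕ} (t : Fin l → ℝ) (J : Finset (Fin l)) :
    IsPolyhedron {p : Fin l → ℝ | (∀ j ∈ J, p j = t j) ∧ ∀ j, t j ≤ p j} := by
  classical
  have : {p : Fin l → ℝ | (∀ j ∈ J, p j = t j) ∧ ∀ j, t j ≤ p j} =
      {x : Fin l → ℝ | ∀ i : Fin l ⊕ Fin l, ∑ j,
        (Sum.elim (fun m j => if j = m then (-1 : ℝ) else 0)
          (fun m j => if m ∈ J ∧ j = m then (1 : ℝ) else 0) i j) * x j ≤
        (Sum.elim (fun m => - t m) (fun m => if m ∈ J then t m else 0) i : ℝ)} := by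
    ext p
    simp only [mem_ofPred_eq, Sum.forall, Sum.elim_inl, Sum.elim_inr, ite_mul, zero_mul,
      Finset.sum_ite_eq', Finset.mem_univ, if_true]
    constructor
    · rintro ⟨h1, h2⟩
      refine ⟨fun m => by linarith [h2 m], fun m => ?_⟩
      by_cases hm : m ∈ J
      · simp only [hm, true_and, if_true, Finset.sum_ite_eq', Finset.mem_univ, one_mul]
        exact (h1 m hm).le
      · simp [hm]
    · rintro ⟨h1, h2⟩
      have h3 : ∀ j, t j ≤ p j := fun m => by linarith [h1 m]
      refine ⟨fun m hm => le_antisymm ?_ (h3 m), h3⟩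
      have := h2 m
      simp only [hm, true_and, if_true, Finset.sum_ite_eq', Finset.mem_univ, one_mul] at this
      exact this
  rw [this]
  exact isPolyhedron_of_fintype _ _

lemma finrank_K {l : ℕ} (t : Fin l → ℝ) (J : Finset (Fin l)) :
    l - J.card ≤ Module.finrank ℝ
      (vectorSpan ℝ {p : Fin l → ℝ | (∀ j ∈ J, p j = t j) ∧ ∀ j, t j ≤ p j}) := by
  classical
  set K := {p : Fin l → ℝ | (∀ j ∈ J, p j = t j) ∧ ∀ j, t j ≤ p j} with hK
  let ext : ((Jᶜ : Finset (Fin l)) → ℝ) →ₗ[ℝ] (Fin l → ℝ) :=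
    { toFun := fun w m => if h : m ∈ Jᶜ then w ⟨m, h⟩ else 0
      map_add' := by
        intro w w'
        funext m
        by_cases h : m ∈ Jᶜ
        · simp only [dif_pos h, Pi.add_apply]
        · simp only [dif_neg h, Pi.add_apply, add_zero]
      map_smul' := by
        intro a w
        funext m
        by_cases h : m ∈ Jᶜ
        · simp only [dif_pos h, Pi.smul_apply, RingHom.id_apply]
        · simp only [dif_neg h, Pi.smul_apply, RingHom.id_apply, smul_zero] }
  have hext : ∀ w m, ext w m = if h : m ∈ Jᶜ then w ⟨m, h⟩ else 0 := fun w m => rfl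
  have hmem : ∀ w, ext w ∈ vectorSpan ℝ K := by
    intro w
    have h1 : t + ext (fun m => max (w m) 0) ∈ K := by
      constructor
      · intro j hj
        rw [Pi.add_apply, hext, dif_neg (by simpa using hj), add_zero]
      · intro j
        rw [Pi.add_apply, hext]
        by_cases h : j ∈ Jᶜ
        · rw [dif_pos h]; linarith [le_max_right (w ⟨j, h⟩) 0]
        · rw [dif_neg h]; linarith
    have h2 : t + ext (fun m => max (- w m) 0) ∈ K := by
      constructor
      · intro j hj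
        rw [Pi.add_apply, hext, dif_neg (by simpa using hj), add_zero]
      · intro j
        rw [Pi.add_apply, hext]
        by_cases h : j ∈ Jᶜ
        · rw [dif_pos h]; linarith [le_max_right (- w ⟨j, h⟩) 0]
        · rw [dif_neg h]; linarith
    have h3 := vsub_mem_vectorSpan ℝ h1 h2
    have h4 : (t + ext (fun m => max (w m) 0)) -ᵥ (t + ext (fun m => max (- w m) 0)) = ext w := by
      rw [vsub_eq_sub, add_sub_add_left_eq_sub, ← map_sub]
      congr 1
      ext m
      simp only [Pi.sub_apply]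
      rcases le_total (w m) 0 with h | h
      · rw [max_eq_right h, max_eq_left (by linarith)]; ring
      · rw [max_eq_left h, max_eq_right (by linarith)]; ring
    rwa [h4] at h3
  let φ : ((Jᶜ : Finset (Fin l)) → ℝ) →ₗ[ℝ] vectorSpan ℝ K := ext.codRestrict _ hmem
  have hinj : Function.Injective φ := by
    rw [injective_iff_map_eq_zero]
    intro w hw
    ext m
    have h1 : ext w = 0 := congrArg Subtype.val hw
    have h2 := congrFun h1 m.1
    rw [hext, dif_pos m.2] at h2
    exact h2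
  have := LinearMap.finrank_le_finrank_of_injective hinj
  rwa [Module.finrank_fintype_fun_eq_card, Fintype.card_coe, Finset.card_compl,
    Fintype.card_fin] at this

lemma polyDim_ge {l : ℕ} {S K : Set (Fin l → ℝ)} (hK : K ⊆ S) (hp : IsPolyhedron K)
    (hne : K.Nonempty) : Module.finrank ℝ (vectorSpan ℝ K) ≤ polyDim S := by
  apply le_csSup
  · refine ⟨l, ?_⟩
    rintro k ⟨K', _, _, _, rfl⟩
    have := Submodule.finrank_le (vectorSpan ℝ K')
    rwa [Module.finrank_fin_fun] at this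
  · exact ⟨K, hK, hp, hne, rfl⟩

lemma exists_cover [Nonempty Y] {l : ℕ} (hl : 0 < l) (g : Fin l → Y → ℝ) (c : Fin l → ℝ) :
    ∃ J : Finset (Fin l), l - polyDim (Psi g ⁻¹' {Psi g c}) ≤ J.card ∧
      ∀ e : Fin l → WithTop ℝ, (∃ i ∈ J, e i ≠ ⊤) → ∃ y, ∃ i ∈ J, e i ≠ ⊤ ∧ ∀ k ∈ J, k ≠ i →
        (g i y : WithTop ℝ) + e i < (g k y : WithTop ℝ) + e k := by
  classical
  set f := Psi g c with hf
  set t : Fin l → ℝ := fun j => ⨆ y, (f y - g j y) with ht
  have hb : ∀ j y, f y - g j y ≤ c j := fun j y => by linarith [Psi_le g c y j]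
  have ht1 : ∀ j y, f y - g j y ≤ t j := fun j y =>
    le_ciSup (f := fun y => f y - g j y) ⟨c j, by rintro _ ⟨y, rfl⟩; exact hb j y⟩ y
  have ht2 : ∀ j, t j ≤ c j := fun j => ciSup_le fun y => hb j y
  let Cov : Finset (Fin l) → Prop := fun J => ∀ y, ∃ j ∈ J, f y = g j y + t j
  have hcu : Cov Finset.univ := by
    intro y
    obtain ⟨j, hj⟩ := exists_Psi_eq hl g c y
    refine ⟨j, Finset.mem_univ j, ?_⟩
    have h1 := ht1 j y
    have h2 := ht2 j
    have h3 : f y = g j y + c j := hj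
    linarith
  have hS : (Finset.univ.filter Cov).Nonempty := ⟨Finset.univ, by simp [hcu]⟩
  obtain ⟨J, hJm, hJmin⟩ := Finset.exists_min_image (Finset.univ.filter Cov) Finset.card hS
  have hJ : Cov J := (Finset.mem_filter.1 hJm).2
  refine ⟨J, ?_, ?_⟩
  · have hsub : {p : Fin l → ℝ | (∀ j ∈ J, p j = t j) ∧ ∀ j, t j ≤ p j} ⊆ Psi g ⁻¹' {f} := by
      rintro p ⟨hp1, hp2⟩
      show Psi g p = f
      funext y
      apply le_antisymm
      · obtain ⟨j, hj, hfj⟩ := hJ y
        have := Psi_le g p y j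
        rw [hp1 j hj] at this
        linarith
      · obtain ⟨j, hj⟩ := exists_Psi_eq hl g p y
        rw [hj]
        linarith [ht1 j y, hp2 j]
    have h1 := finrank_K t J
    have h2 := polyDim_ge hsub (isPolyhedron_K t J) ⟨t, fun j _ => rfl, fun j => le_rfl⟩
    omega
  · rintro e ⟨i0, hi0, hei0⟩
    obtain ⟨i, hiJ, hmin⟩ := Finset.exists_min_image J
      (fun i => e i + ((- t i : ℝ) : WithTop ℝ)) ⟨i0, hi0⟩
    have hei : e i ≠ ⊤ := by
      intro h
      have := hmin i0 hi0
      rw [h, WithTop.top_add, top_le_iff, WithTop.add_eq_top] at this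
      rcases this with h' | h'
      · exact hei0 h'
      · exact WithTop.coe_ne_top h'
    obtain ⟨a, ha⟩ := WithTop.ne_top_iff_exists.1 hei
    have hncov : ¬ Cov (J.erase i) := by
      intro hcov
      have := hJmin (J.erase i) (by simp [hcov])
      have h2 := Finset.card_erase_lt_of_mem hiJ
      omega
    have hex : ∃ y, ∀ j ∈ J.erase i, f y ≠ g j y + t j := by
      by_contra hcon
      push Not at hcon
      exact hncov hcon
    obtain ⟨y, hy⟩ := hex
    have hiy : f y = g i y + t i := by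
      obtain ⟨j, hj, hfj⟩ := hJ y
      by_cases hji : j = i
      · rw [← hji]; exact hfj
      · exact absurd hfj (hy j (Finset.mem_erase.2 ⟨hji, hj⟩))
    refine ⟨y, i, hiJ, hei, fun k hk hki => ?_⟩
    have h1 : f y < g k y + t k := by
      have h2 := ht1 k y
      have h3 := hy k (Finset.mem_erase.2 ⟨hki, hk⟩)
      rcases lt_or_eq_of_le (show f y ≤ g k y + t k by linarith) with h | h
      · exact h
      · exact absurd h h3
    by_cases hek : e k = ⊤
    · rw [hek, WithTop.add_top, ← ha, ← WithTop.coe_add]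
      exact WithTop.coe_lt_top _
    · obtain ⟨b, hb'⟩ := WithTop.ne_top_iff_exists.1 hek
      have h4 := hmin k hk
      rw [← ha, ← hb', ← WithTop.coe_add, ← WithTop.coe_add, WithTop.coe_le_coe] at h4
      rw [← ha, ← hb', ← WithTop.coe_add, ← WithTop.coe_add, WithTop.coe_lt_coe]
      linarith

lemma gen_mem_span {l : ℕ} (g : Fin l → Y → ℝ) (j : Fin l) : g j ∈ span g := by
  classical
  rw [mem_span_iff (Fin.pos j)]
  refine ⟨fun k => if k = j then 0 else ⊤, fun y => ⟨fun k => ?_, j, by simp⟩⟩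
  show (g j y : WithTop ℝ) ≤ (if k = j then (0 : WithTop ℝ) else ⊤) + (g k y : WithTop ℝ)
  by_cases hk : k = j
  · rw [if_pos hk, hk, zero_add]
  · rw [if_neg hk, WithTop.top_add]; exact le_top

lemma exists_indep [Nonempty Y] {l : ℕ} (hl : 0 < l) (g : Fin l → Y → ℝ) (c : Fin l → ℝ) {n : ℕ}
    (hn : n ≤ l - polyDim (Psi g ⁻¹' {Psi g c})) :
    ∃ f : Fin n → Y → ℝ, (∀ i, f i ∈ span g) ∧ ¬ TropDep f := by
  obtain ⟨J, hJc, hJ⟩ := exists_cover hl g c
  have hnJ : n ≤ J.card := hn.trans hJc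
  let ι : Fin n → Fin l := fun i => J.orderEmbOfFin rfl (Fin.castLE hnJ i)
  have hιinj : Function.Injective ι := by
    intro a b hab
    have := (J.orderEmbOfFin rfl).injective hab
    exact Fin.castLE_injective hnJ this
  have hιJ : ∀ i, ι i ∈ J := fun i => Finset.orderEmbOfFin_mem J rfl _
  refine ⟨fun i => g (ι i), fun i => gen_mem_span g _, ?_⟩
  rintro ⟨d, ⟨i0, hi0⟩, hd⟩
  set e : Fin l → WithTop ℝ := Function.extend ι d (fun _ => ⊤) with he
  have heι : ∀ i, e (ι i) = d i := fun i => hιinj.extend_apply _ _ i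
  obtain ⟨y, i, hiJ, hei, hst⟩ := hJ e ⟨ι i0, hιJ i0, by rw [heι]; exact hi0⟩
  have hir : ∃ i', ι i' = i := by
    by_contra hno
    exact hei (Function.extend_apply' _ _ _ hno)
  obtain ⟨i', rfl⟩ := hir
  obtain ⟨a, b, hab, heq, hmin⟩ := hd y
  by_cases ha : a = i'
  · have hb : ι b ≠ ι i' := fun h => hab (ha.trans (hιinj h).symm)
    have := hst (ι b) (hιJ b) hb
    rw [heι, heι, ← ha] at this
    exact absurd heq this.ne
  · have ha' : ι a ≠ ι i' := fun h => ha (hιinj h)
    have := hst (ι a) (hιJ a) ha'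
    rw [heι, heι] at this
    exact absurd (hmin i') (not_le.2 this)

theorem general (Y : Type) [Nonempty Y] (l : ℕ) (hl : 0 < l) (g : Fin l → Y → ℝ) :
    ∃ n, IsGreatest {r | ∃ f : Fin r → Y → ℝ, (∀ i, f i ∈ span g) ∧ ¬ TropDep f} n ∧
      IsGreatest {k | ∃ f ∈ range (Psi g), k = l - polyDim (Psi g ⁻¹' {f})} n := by
  set D : Set ℕ := {k | ∃ f ∈ range (Psi g), k = l - polyDim (Psi g ⁻¹' {f})} with hD
  have hDne : D.Nonempty := ⟨_, Psi g 0, ⟨0, rfl⟩, rfl⟩
  have hDb : BddAbove D := ⟨l, by rintro k ⟨f, _, rfl⟩; omega⟩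
  have hmem := Nat.sSup_mem hDne hDb
  have hub : ∀ k ∈ D, k ≤ sSup D := fun k hk => le_csSup hDb hk
  refine ⟨sSup D, ⟨?_, ?_⟩, hmem, hub⟩
  · obtain ⟨f, ⟨c, rfl⟩, hk⟩ := hmem
    exact exists_indep hl g c hk.le
  · rintro r ⟨f, hf, hdep⟩
    rcases Nat.eq_zero_or_pos r with h0 | hr
    · rw [h0]; exact Nat.zero_le _
    obtain ⟨c, x, hx⟩ := exists_private hr f hdep
    obtain ⟨j, e, hj, he⟩ := exists_gen hl g f hf c x hx
    obtain ⟨c', hc'⟩ := exists_low hl g j hj e x he
    have hrl : r ≤ l := by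
      have := Fintype.card_le_of_injective j hj
      simpa using this
    refine le_trans ?_ (hub _ ⟨Psi g c', ⟨c', rfl⟩, rfl⟩)
    omega

/-! ### bounded generators -/

lemma psi_mem_span {l : ℕ} (hl : 0 < l) (g : Fin l → Y → ℝ) (c : Fin l → ℝ) :
    Psi g c ∈ span g := by
  rw [mem_span_iff hl]
  refine ⟨fun j => (c j : WithTop ℝ), fun y => ⟨fun j => ?_, ?_⟩⟩
  · rw [← WithTop.coe_add, WithTop.coe_le_coe]
    linarith [Psi_le g c y j]
  · obtain ⟨j, hj⟩ := exists_Psi_eq hl g c y
    refine ⟨j, ?_⟩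
    rw [← WithTop.coe_add, WithTop.coe_inj]
    linarith

lemma span_sub_range [Nonempty Y] {l : ℕ} (hl : 0 < l) (g : Fin l → Y → ℝ) (B : ℝ)
    (hB : ∀ j y, |g j y| ≤ B) {f : Y → ℝ} (hf : f ∈ span g) : f ∈ range (Psi g) := by
  classical
  rw [mem_span_iff hl] at hf
  obtain ⟨a, ha⟩ := hf
  obtain ⟨y0⟩ := (inferInstance : Nonempty Y)
  obtain ⟨j0, hj0⟩ := (ha y0).2
  have hne : a j0 ≠ ⊤ := by
    intro h
    rw [h, WithTop.top_add] at hj0
    exact WithTop.coe_ne_top hj0
  obtain ⟨a0, ha0⟩ := WithTop.ne_top_iff_exists.1 hne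
  have hc : ∀ j, ∃ c : ℝ, (a j = (c : WithTop ℝ)) ∨ (a j = ⊤ ∧ c = a0 + 2 * B) := by
    intro j
    by_cases h : a j = ⊤
    · exact ⟨_, Or.inr ⟨h, rfl⟩⟩
    · obtain ⟨b, hb⟩ := WithTop.ne_top_iff_exists.1 h
      exact ⟨b, Or.inl hb.symm⟩
  choose c hc using hc
  refine ⟨c, ?_⟩
  funext y
  apply le_antisymm
  · obtain ⟨j, hj⟩ := (ha y).2
    rcases hc j with h | ⟨h, _⟩
    · rw [h, ← WithTop.coe_add, WithTop.coe_inj] at hj
      linarith [Psi_le g c y j]
    · rw [h, WithTop.top_add] at hj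
      exact absurd hj WithTop.coe_ne_top
  · obtain ⟨j, hj⟩ := exists_Psi_eq hl g c y
    rw [hj]
    rcases hc j with h | ⟨_, h⟩
    · have := (ha y).1 j
      rw [h, ← WithTop.coe_add, WithTop.coe_le_coe] at this
      linarith
    · have := (ha y).1 j0
      rw [← ha0, ← WithTop.coe_add, WithTop.coe_le_coe] at this
      rw [h]
      have h1 := abs_le.1 (hB j0 y)
      have h2 := abs_le.1 (hB j y)
      linarith [h1.2, h2.1]

lemma span_bdd [Nonempty Y] {l : ℕ} (hl : 0 < l) (g : Fin l → Y → ℝ) (B : ℝ)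
    (hB : ∀ j y, |g j y| ≤ B) {f : Y → ℝ} (hf : f ∈ span g) : ∃ B', ∀ y, |f y| ≤ B' := by
  obtain ⟨c, rfl⟩ := span_sub_range hl g B hB hf
  obtain ⟨C, hC⟩ := (Set.finite_range (fun j => |c j|)).bddAbove
  refine ⟨B + C, fun y => ?_⟩
  obtain ⟨j, hj⟩ := exists_Psi_eq hl g c y
  rw [hj]
  exact (abs_add_le _ _).trans (add_le_add (hB j y) (hC ⟨j, rfl⟩))

lemma tropDep_iff_realDep [Nonempty Y] {r : ℕ} (f : Fin r → Y → ℝ) (B : ℝ)
    (hB : ∀ i y, |f i y| ≤ B) : TropDep f ↔ RealDep f := by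
  classical
  constructor
  · rintro ⟨c, ⟨i0, hi0⟩, h⟩
    obtain ⟨a0, ha0⟩ := WithTop.ne_top_iff_exists.1 hi0
    have hc : ∀ j, ∃ d : ℝ, (c j = (d : WithTop ℝ)) ∨ (c j = ⊤ ∧ d = a0 + 2 * B) := by
      intro j
      by_cases h : c j = ⊤
      · exact ⟨_, Or.inr ⟨h, rfl⟩⟩
      · obtain ⟨b, hb⟩ := WithTop.ne_top_iff_exists.1 h
        exact ⟨b, Or.inl hb.symm⟩
    choose d hd using hc
    refine ⟨d, fun y => ?_⟩
    obtain ⟨i, j, hij, heq, hmin⟩ := h y
    have hi : c i = (d i : WithTop ℝ) := by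
      rcases hd i with h1 | ⟨h1, _⟩
      · exact h1
      · exfalso
        have := hmin i0
        rw [h1, WithTop.add_top, top_le_iff, ← ha0, ← WithTop.coe_add] at this
        exact WithTop.coe_ne_top this
    have hj : c j = (d j : WithTop ℝ) := by
      rcases hd j with h1 | ⟨h1, _⟩
      · exact h1
      · exfalso
        rw [h1, WithTop.add_top, hi, ← WithTop.coe_add] at heq
        exact WithTop.coe_ne_top heq
    refine ⟨i, j, hij, ?_, fun k => ?_⟩
    · rw [hi, hj, ← WithTop.coe_add, ← WithTop.coe_add, WithTop.coe_inj] at heq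
      exact heq
    · rcases hd k with h1 | ⟨_, h1⟩
      · have := hmin k
        rw [hi, h1, ← WithTop.coe_add, ← WithTop.coe_add, WithTop.coe_le_coe] at this
        exact this
      · have := hmin i0
        rw [hi, ← ha0, ← WithTop.coe_add, ← WithTop.coe_add, WithTop.coe_le_coe] at this
        rw [h1]
        have h2 := abs_le.1 (hB i0 y)
        have h3 := abs_le.1 (hB k y)
        linarith [h2.2, h3.1]
  · rintro ⟨c, h⟩
    refine ⟨fun i => (c i : WithTop ℝ), ?_, fun y => ?_⟩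
    · obtain ⟨y0⟩ := (inferInstance : Nonempty Y)
      obtain ⟨i, _⟩ := h y0
      exact ⟨i, WithTop.coe_ne_top⟩
    · obtain ⟨i, j, hij, heq, hmin⟩ := h y
      refine ⟨i, j, hij, ?_, fun k => ?_⟩
      · rw [← WithTop.coe_add, ← WithTop.coe_add, WithTop.coe_inj]; exact heq
      · rw [← WithTop.coe_add, ← WithTop.coe_add, WithTop.coe_le_coe]; exact hmin k

theorem bounded_case (Y : Type) [Nonempty Y] (l : ℕ) (hl : 0 < l) (g : Fin l → Y → ℝ)
    (hg : ∀ j, ∃ B, ∀ y, |g j y| ≤ B) :
    ∃ n, IsGreatest {r | ∃ f : Fin r → Y → ℝ, (∀ i, f i ∈ span g) ∧ ¬ RealDep f} n ∧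
      IsGreatest {k | ∃ f ∈ span g, k = l - polyDim (Psi g ⁻¹' {f})} n := by
  choose b hb using hg
  obtain ⟨B, hB⟩ := (Set.finite_range b).bddAbove
  have hB' : ∀ j y, |g j y| ≤ B := fun j y => (hb j y).trans (hB ⟨j, rfl⟩)
  obtain ⟨n, h1, h2⟩ := general Y l hl g
  have e1 : {r | ∃ f : Fin r → Y → ℝ, (∀ i, f i ∈ span g) ∧ ¬ RealDep f} =
      {r | ∃ f : Fin r → Y → ℝ, (∀ i, f i ∈ span g) ∧ ¬ TropDep f} := by
    ext r
    simp only [mem_ofPred_eq]
    refine exists_congr fun f => and_congr_right fun hf => ?_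
    choose β hβ using fun i => span_bdd hl g B hB' (hf i)
    obtain ⟨B2, hB2⟩ := (Set.finite_range β).bddAbove
    rw [tropDep_iff_realDep f B2 fun i y => (hβ i y).trans (hB2 ⟨i, rfl⟩)]
  have e2 : {k | ∃ f ∈ span g, k = l - polyDim (Psi g ⁻¹' {f})} =
      {k | ∃ f ∈ range (Psi g), k = l - polyDim (Psi g ⁻¹' {f})} := by
    ext k
    constructor
    · rintro ⟨f, hf, hk⟩
      exact ⟨f, span_sub_range hl g B hB' hf, hk⟩
    · rintro ⟨f, ⟨c, rfl⟩, hk⟩
      exact ⟨_, psi_mem_span hl g c, hk⟩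
  exact ⟨n, by rw [e1]; exact h1, by rw [e2]; exact h2⟩

/-! ### the half-line -/

lemma half_line (r : ℕ) : ∃ f : Fin r → Ici (0 : ℝ) → ℝ, Function.Injective f ∧
    (∀ i, f i ∈ span ![fun _ : Ici (0 : ℝ) => (0 : ℝ), fun x : Ici (0 : ℝ) => - (x : ℝ)]) ∧
    ¬ RealDep f := by
  classical
  refine ⟨fun i x => if (i : ℕ) = 0 then - (x : ℝ) else (i : ℝ), ?_, ?_, ?_⟩
  · intro i k hik
    have h0 := congrFun hik ⟨0, mem_Ici.2 le_rfl⟩
    beta_reduce at h0
    apply Fin.ext
    by_cases hi : (i : ℕ) = 0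
    · by_cases hk : (k : ℕ) = 0
      · rw [hi, hk]
      · rw [if_pos hi, if_neg hk] at h0
        exfalso
        have : (0 : ℝ) < (k : ℝ) := by exact_mod_cast Nat.pos_of_ne_zero hk
        simp only [neg_zero] at h0
        linarith
    · by_cases hk : (k : ℕ) = 0
      · rw [if_neg hi, if_pos hk] at h0
        exfalso
        have : (0 : ℝ) < (i : ℝ) := by exact_mod_cast Nat.pos_of_ne_zero hi
        simp only [neg_zero] at h0
        linarith
      · rw [if_neg hi, if_neg hk] at h0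
        exact_mod_cast h0
  · intro i
    rw [mem_span_iff (by norm_num)]
    by_cases hi : (i : ℕ) = 0
    · refine ⟨![⊤, 0], fun y => ⟨fun j => ?_, 1, ?_⟩⟩
      · fin_cases j <;> simp [hi]
      · simp [hi]
    · refine ⟨![((i : ℝ) : WithTop ℝ), ⊤], fun y => ⟨fun j => ?_, 0, ?_⟩⟩
      · fin_cases j <;> simp [hi]
      · simp [hi]
  · rintro ⟨c, hc⟩
    have hr : 0 < r := by
      obtain ⟨i, _⟩ := hc ⟨0, mem_Ici.2 le_rfl⟩
      exact Fin.pos i
    obtain ⟨L, hL⟩ := (Set.finite_range (fun k : Fin r => |c ⟨0, hr⟩| + |c k|)).bddAbove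
    have hL0 : 0 ≤ L := (by positivity : (0 : ℝ) ≤ |c ⟨0, hr⟩| + |c ⟨0, hr⟩|).trans (hL ⟨_, rfl⟩)
    obtain ⟨i, j, hij, heq, hmin⟩ := hc ⟨L + 1, mem_Ici.2 (by linarith)⟩
    beta_reduce at heq hmin
    have key : ∀ k : Fin r, (k : ℕ) ≠ 0 → -(L + 1) + c ⟨0, hr⟩ < (k : ℝ) + c k := by
      intro k hk
      have h1 : |c ⟨0, hr⟩| + |c k| ≤ L := hL ⟨k, rfl⟩
      have h2 := le_abs_self (c ⟨0, hr⟩)
      have h3 := neg_abs_le (c k)
      have h4 : (0 : ℝ) ≤ (k : ℝ) := Nat.cast_nonneg _
      linarith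
    by_cases hi : (i : ℕ) = 0
    · have hj : (j : ℕ) ≠ 0 := fun h => hij (Fin.ext (hi.trans h.symm))
      have hi' : i = ⟨0, hr⟩ := Fin.ext hi
      have := key j hj
      rw [if_pos hi, if_neg hj, hi'] at heq
      linarith
    · have := key i hi
      have h2 := hmin ⟨0, hr⟩
      rw [if_neg hi, if_pos rfl] at h2
      linarith

/-- Tropical rank equals dimension. (1) For every nonempty set `Y`, all functions
`g_1, …, g_l : Y → ℝ` and coefficients in `ℝ ∪ {∞}`. (2) For compact `Y`, continuous `g_j` and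
real coefficients. (3) With real coefficients the rank is infinite for the semimodule generated by
`0` and `- x` on the half-line `[0, ∞)`. -/
theorem result :
    (∀ (Y : Type) [Nonempty Y] (l : ℕ) (_ : 0 < l) (g : Fin l → Y → ℝ),
      ∃ n, IsGreatest {r | ∃ f : Fin r → Y → ℝ, (∀ i, f i ∈ span g) ∧ ¬ TropDep f} n ∧
        IsGreatest {k | ∃ f ∈ range (Psi g), k = l - polyDim (Psi g ⁻¹' {f})} n) ∧
    (∀ (Y : Type) [Nonempty Y] [TopologicalSpace Y] [CompactSpace Y] (l : ℕ) (_ : 0 < l)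
      (g : Fin l → Y → ℝ) (_ : ∀ j, Continuous (g j)),
      ∃ n, IsGreatest {r | ∃ f : Fin r → Y → ℝ, (∀ i, f i ∈ span g) ∧ ¬ RealDep f} n ∧
        IsGreatest {k | ∃ f ∈ span g, k = l - polyDim (Psi g ⁻¹' {f})} n) ∧
    (∀ r : ℕ, ∃ f : Fin r → Ici (0 : ℝ) → ℝ, Function.Injective f ∧
      (∀ i, f i ∈ span ![fun _ : Ici (0 : ℝ) => (0 : ℝ), fun x : Ici (0 : ℝ) => - (x : ℝ)]) ∧
      ¬ RealDep f) := by
  refine ⟨fun Y _ l hl g => general Y l hl g, fun Y _ _ _ l hl g hg => ?_, half_line⟩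
  apply bounded_case Y l hl g
  intro j
  have hc : Continuous fun y => |g j y| := (hg j).abs
  obtain ⟨B, hB⟩ := (isCompact_range hc).bddAbove
  exact ⟨B, fun y => hB ⟨y, rfl⟩⟩

end Pool.Agent.Results.MP_8916ec_co.RankDim
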